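import Mathlib
import Pool.Agent.H4.Fri1

set_option autoImplicit false
set_option maxHeartbeats 400000

namespace Pool.Agent.Results.MP_98aad6_an.Empty

variable {X : Type} [AddCommGroup X] [Module ℝ X]

/-- `F` is a face of `C` -/
def IsFace (C F : Set X) : Prop :=
  F ⊆ C ∧ Convex ℝ F ∧ ∀ x ∈ F, ∀ y ∈ C, ∀ z ∈ C, x ∈ openSegment ℝ y z → y ∈ F ∧ z ∈ F

/-- the smallest face of `C` containing `x` -/
def Fmin (x : X) (C : Set X) : Set X := ⋂₀ {F | IsFace C F ∧ x ∈ F}

/-- face relative interior -/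
def fri [TopologicalSpace X] (C : Set X) : Set X := {x | x ∈ C ∧ C ⊆ closure (Fmin x C)}

/-- quasi-relative interior -/
def qri [TopologicalSpace X] (C : Set X) : Set X :=
  {x | x ∈ C ∧ ∃ L : Submodule ℝ X,
    (L : Set X) = closure {w | ∃ a : ℝ, 0 ≤ a ∧ ∃ y ∈ C, w = a • (y - x)}}

open Pool.Agent.H4.Fri in
theorem result : ∃ (X : Type) (_ : AddCommGroup X) (_ : Module ℝ X) (_ : TopologicalSpace X),
    IsTopologicalAddGroup X ∧ ContinuousSMul ℝ X ∧ TopologicalSpace.MetrizableSpace X ∧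
    TopologicalSpace.SeparableSpace X ∧ LocallyConvexSpace ℝ X ∧
    ∃ C : Set X, Convex ℝ C ∧ IsClosed C ∧ (qri C).Nonempty ∧ fri C = ∅ := by
  have := emb.secondCountableTopology
  refine ⟨X, inferInstance, inferInstance, inferInstance, topologicalAddGroup_induced Φ,
    continuousSMul_induced Φ, emb.metrizableSpace, inferInstance, emb.locallyConvexSpace,
    {x | 0 ≤ x}, convex_Ici 0, cl, ⟨Finsupp.single none 1, Finsupp.single_nonneg.2 zero_le_one, ⊤,
      (Set.eq_univ_of_forall dns).symm⟩, Set.eq_empty_of_forall_notMem fun y hy =>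
      nd y (hy.2.trans (closure_mono (Set.sInter_subset_of_mem ⟨⟨fun x h => h.1, ?_, ?_⟩, hy.1,
        fun i h => h⟩)))⟩
  · intro p hp q hq a b ha hb _
    exact ⟨add_nonneg (smul_nonneg ha hp.1) (smul_nonneg hb hq.1), fun i h => by
      simp [hp.2 i h, hq.2 i h]⟩
  · rintro _ hx p hp q hq ⟨a, b, ha, hb, -, rfl⟩
    have k : ∀ i, y i = 0 → a * p i + b * q i = 0 := fun i h => hx.2 i h
    have p0 : ∀ i, 0 ≤ p i := hp
    have q0 : ∀ i, 0 ≤ q i := hq
    exact ⟨⟨hp, fun i h => by nlinarith [k i h, p0 i, q0 i, mul_nonneg hb.le (q0 i)]⟩,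
      hq, fun i h => by nlinarith [k i h, p0 i, q0 i, mul_nonneg ha.le (p0 i)]⟩

end Pool.Agent.Results.MP_98aad6_an.Empty
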